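import Pool.Agent.Helper61.RZL.HEq

/-!
# RZ-L7b: the essential image of a quasi-fully faithful DG functor
-/

set_option autoImplicit false

namespace Pool.Agent.Helper61.RZL

open Pool.Agent.Helper17.RZ Pool.Agent.Helper49.RZ CategoryTheory

universe u v w v' w'

variable {k : Type u} [Field k]

/-! ### The homotopy category -/

/-- The objects of the homotopy category. -/
structure Ho (C : DGCat.{u, v, w} k) where
  of : C.Obj

/-- Homotopy of closed morphisms. -/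
def hoSetoid (C : DGCat.{u, v, w} k) (X Y : C.Obj) :
    Setoid {f : C.Hom X Y 0 // C.d (zero_add 1) f = 0} where
  r f g := ∃ s : C.Hom X Y (-1), f.1 = g.1 + C.d (neg_add_cancel 1) s
  iseqv :=
    { refl := fun f => ⟨0, by rw [map_zero, add_zero]⟩
      symm := by
        rintro f g ⟨s, hs⟩
        exact ⟨-s, by rw [map_neg, hs, add_neg_cancel_right]⟩
      trans := by
        rintro f g h ⟨s, hs⟩ ⟨t, ht⟩
        exact ⟨t + s, by rw [map_add, hs, ht, add_assoc]⟩ }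

theorem closed_comp {C : DGCat.{u, v, w} k} {X Y Z : C.Obj} (f : C.Hom Y Z 0) (g : C.Hom X Y 0)
    (hf : C.d (zero_add 1) f = 0) (hg : C.d (zero_add 1) g = 0) :
    C.d (zero_add 1) (C.comp (zero_add 0) f g) = 0 := by
  rw [d_comp_l (zero_add 1) f g hf, hg, comp_zero']

theorem comp_hty {C : DGCat.{u, v, w} k} {X Y Z : C.Obj} (f f' : C.Hom Y Z 0) (g g' : C.Hom X Y 0)
    (s : C.Hom Y Z (-1)) (t : C.Hom X Y (-1))
    (hf' : C.d (zero_add 1) f' = 0) (hg : C.d (zero_add 1) g = 0)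
    (hs : f = f' + C.d (neg_add_cancel 1) s) (ht : g = g' + C.d (neg_add_cancel 1) t) :
    C.comp (zero_add 0) f g = C.comp (zero_add 0) f' g' + C.d (neg_add_cancel 1)
      (C.comp (zero_add (-1)) f' t + C.comp (add_zero (-1)) s g) := by
  rw [map_add, d_comp_l (neg_add_cancel 1) f' t hf', d_comp_r (neg_add_cancel 1) s g hg,
    ← add_assoc, ← comp_add', ← ht, hs, add_comp']

instance (C : DGCat.{u, v, w} k) : Category.{w} (Ho C) where
  Hom X Y := Quotient (hoSetoid C X.of Y.of)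
  id X := Quotient.mk _ ⟨C.one X.of, d_one X.of⟩
  comp {X Y Z} g f := Quotient.map₂
    (fun (g : {g : C.Hom X.of Y.of 0 // C.d (zero_add 1) g = 0})
      (f : {f : C.Hom Y.of Z.of 0 // C.d (zero_add 1) f = 0}) =>
      (⟨C.comp (zero_add 0) f.1 g.1, closed_comp _ _ f.2 g.2⟩ :
        {h : C.Hom X.of Z.of 0 // C.d (zero_add 1) h = 0}))
    (by
      rintro g g' ⟨t, ht⟩ f f' ⟨s, hs⟩
      exact ⟨_, comp_hty _ _ _ _ s t f'.2 g.2 hs ht⟩) g f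
  id_comp f := by
    refine Quotient.inductionOn f fun f => ?_
    refine Quotient.sound ⟨0, ?_⟩
    change C.comp (zero_add 0) f.1 (C.one _) = f.1 + C.d _ 0
    rw [map_zero, add_zero, C.comp_one]
  comp_id f := by
    refine Quotient.inductionOn f fun f => ?_
    refine Quotient.sound ⟨0, ?_⟩
    change C.comp (zero_add 0) (C.one _) f.1 = f.1 + C.d _ 0
    rw [map_zero, add_zero, C.one_comp]
  assoc f g h := by
    refine Quotient.inductionOn₃ f g h fun f g h => ?_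
    refine Quotient.sound ⟨0, ?_⟩
    change C.comp (zero_add 0) h.1 (C.comp (zero_add 0) g.1 f.1) =
      C.comp (zero_add 0) (C.comp (zero_add 0) h.1 g.1) f.1 + C.d _ 0
    rw [map_zero, add_zero, C.assoc (zero_add 0) (zero_add 0) (zero_add 0) (zero_add 0)]

/-- The class of a closed morphism. -/
def cl {C : DGCat.{u, v, w} k} {X Y : C.Obj} (f : C.Hom X Y 0) (hf : C.d (zero_add 1) f = 0) :
    (⟨X⟩ : Ho C) ⟶ ⟨Y⟩ := Quotient.mk (hoSetoid C X Y) ⟨f, hf⟩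

theorem cl_eq {C : DGCat.{u, v, w} k} {X Y : C.Obj} {f g : C.Hom X Y 0}
    {hf : C.d (zero_add 1) f = 0} {hg : C.d (zero_add 1) g = 0} :
    cl f hf = cl g hg ↔ ∃ s : C.Hom X Y (-1), f = g + C.d (neg_add_cancel 1) s :=
  ⟨fun h => Quotient.exact h, fun h => Quotient.sound h⟩

theorem cl_comp {C : DGCat.{u, v, w} k} {X Y Z : C.Obj} {f : C.Hom Y Z 0} {g : C.Hom X Y 0}
    {hf : C.d (zero_add 1) f = 0} {hg : C.d (zero_add 1) g = 0} :
    cl g hg ≫ cl f hf = cl (C.comp (zero_add 0) f g) (closed_comp f g hf hg) := rfl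

theorem cl_one {C : DGCat.{u, v, w} k} (X : C.Obj) : cl (C.one X) (d_one X) = 𝟙 (⟨X⟩ : Ho C) := rfl

theorem exists_cl {C : DGCat.{u, v, w} k} {X Y : C.Obj} (f : (⟨X⟩ : Ho C) ⟶ ⟨Y⟩) :
    ∃ (g : C.Hom X Y 0) (hg : C.d (zero_add 1) g = 0), f = cl g hg := by
  obtain ⟨g, hg⟩ := Quotient.exists_rep f
  exact ⟨g.1, g.2, hg.symm⟩

theorem hEquiv_iff {C : DGCat.{u, v, w} k} {X Y : C.Obj} :
    HEquiv C X Y ↔ Nonempty ((⟨X⟩ : Ho C) ≅ ⟨Y⟩) := by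
  constructor
  · rintro ⟨f, g, s, t, hf, hg, h1, h2⟩
    refine ⟨⟨cl f hf, cl g hg, ?_, ?_⟩⟩
    · rw [cl_comp, ← cl_one, cl_eq]
      exact ⟨s, h1⟩
    · rw [cl_comp, ← cl_one, cl_eq]
      exact ⟨t, h2⟩
  · rintro ⟨e⟩
    obtain ⟨f, hf, hf'⟩ := exists_cl e.hom
    obtain ⟨g, hg, hg'⟩ := exists_cl e.inv
    have h1 := e.hom_inv_id
    have h2 := e.inv_hom_id
    rw [hf', hg', cl_comp, ← cl_one, cl_eq] at h1 h2
    obtain ⟨s, hs⟩ := h1
    obtain ⟨t, ht⟩ := h2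
    exact ⟨f, g, s, t, hf, hg, hs, ht⟩

theorem closed_map {A : DGCat.{u, v, w} k} {B : DGCat.{u, v', w'} k} (F : DGFun A B) {X Y : A.Obj}
    {n m : ℤ} {h : n + 1 = m} {f : A.Hom X Y n} (hf : A.d h f = 0) : B.d h (F.map f) = 0 := by
  rw [← F.map_d, hf, map_zero]

/-- The action on morphisms of the functor of homotopy categories. -/
def mapH {A : DGCat.{u, v, w} k} {B : DGCat.{u, v', w'} k} (F : DGFun A B) {X Y : A.Obj}
    (f : (⟨X⟩ : Ho A) ⟶ ⟨Y⟩) : (⟨F.obj X⟩ : Ho B) ⟶ ⟨F.obj Y⟩ :=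
  Quotient.map
    (fun (f : {f : A.Hom X Y 0 // A.d (zero_add 1) f = 0}) =>
      (⟨F.map f.1, closed_map F f.2⟩ :
        {f : B.Hom (F.obj X) (F.obj Y) 0 // B.d (zero_add 1) f = 0}))
    (by
      rintro f g ⟨s, hs⟩
      refine ⟨F.map s, ?_⟩
      change F.map f.1 = F.map g.1 + _
      rw [← F.map_d, ← map_add, hs]) f

theorem mapH_cl {A : DGCat.{u, v, w} k} {B : DGCat.{u, v', w'} k} (F : DGFun A B) {X Y : A.Obj}
    {f : A.Hom X Y 0} {hf : A.d (zero_add 1) f = 0} :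
    mapH F (cl f hf) = cl (F.map f) (closed_map F hf) := rfl

theorem mapH_id {A : DGCat.{u, v, w} k} {B : DGCat.{u, v', w'} k} (F : DGFun A B) (X : A.Obj) :
    mapH F (𝟙 (⟨X⟩ : Ho A)) = 𝟙 (⟨F.obj X⟩ : Ho B) := by
  rw [← cl_one, ← cl_one, mapH_cl, cl_eq]
  exact ⟨0, by rw [map_zero, add_zero, F.map_one]⟩

theorem mapH_comp {A : DGCat.{u, v, w} k} {B : DGCat.{u, v', w'} k} (F : DGFun A B) {X Y Z : A.Obj}
    (f : (⟨X⟩ : Ho A) ⟶ ⟨Y⟩) (g : (⟨Y⟩ : Ho A) ⟶ ⟨Z⟩) : mapH F (f ≫ g) = mapH F f ≫ mapH F g := by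
  obtain ⟨f, hf, rfl⟩ := exists_cl f
  obtain ⟨g, hg, rfl⟩ := exists_cl g
  rw [cl_comp, mapH_cl, mapH_cl, mapH_cl, cl_comp, cl_eq]
  exact ⟨0, by rw [map_zero, add_zero, F.map_comp]⟩

theorem mapH_surj {A : DGCat.{u, v, w} k} {B : DGCat.{u, v', w'} k} (F : DGFun A B)
    (h : ∀ X Y, (F.onHom X Y).QI) {X Y : A.Obj} (f : (⟨F.obj X⟩ : Ho B) ⟶ ⟨F.obj Y⟩) :
    ∃ g : (⟨X⟩ : Ho A) ⟶ ⟨Y⟩, mapH F g = f := by
  obtain ⟨g, hg, rfl⟩ := exists_cl f
  obtain ⟨x, z, hx, hz⟩ := (h X Y).surj (neg_add_cancel 1) (zero_add 1) g hg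
  refine ⟨cl x hx, ?_⟩
  rw [mapH_cl]
  exact (cl_eq.2 ⟨z, hz⟩).symm

theorem mapH_inj {A : DGCat.{u, v, w} k} {B : DGCat.{u, v', w'} k} (F : DGFun A B)
    (h : ∀ X Y, (F.onHom X Y).QI) {X Y : A.Obj} {f g : (⟨X⟩ : Ho A) ⟶ ⟨Y⟩}
    (hfg : mapH F f = mapH F g) : f = g := by
  obtain ⟨f, hf, rfl⟩ := exists_cl f
  obtain ⟨g, hg, rfl⟩ := exists_cl g
  rw [mapH_cl, mapH_cl, cl_eq] at hfg
  obtain ⟨s, hs⟩ := hfg
  have h1 : A.d (zero_add 1) (f - g) = 0 := by rw [map_sub, hf, hg, sub_zero]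
  obtain ⟨z, hz⟩ := (h X Y).inj (neg_add_cancel 1) (zero_add 1) (f - g) s h1 (by
    change F.map (f - g) = B.d _ s
    rw [map_sub, hs, add_sub_cancel_left])
  rw [cl_eq]
  exact ⟨z, by rw [add_comm]; exact sub_eq_iff_eq_add.1 hz⟩

/-! ### Shifts -/

theorem isShift_map {A : DGCat.{u, v, w} k} {B : DGCat.{u, v', w'} k} (F : DGFun A B) {X Y : A.Obj}
    {n : ℤ} (h : IsShift A X Y n) : IsShift B (F.obj X) (F.obj Y) n := by
  obtain ⟨f, g, hf, hg, h1, h2⟩ := h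
  refine ⟨F.map f, F.map g, closed_map F hf, closed_map F hg, ?_, ?_⟩
  · rw [← F.map_comp, h1, F.map_one]
  · rw [← F.map_comp, h2, F.map_one]

theorem isCone_map {A : DGCat.{u, v, w} k} {B : DGCat.{u, v', w'} k} (F : DGFun A B) {X Y Z : A.Obj}
    {f : A.Hom X Y 0} (h : IsCone A f Z) : IsCone B (F.map f) (F.obj Z) := by
  obtain ⟨i, p, j, q, hpi, hqj, hsum, hpj, hqi, hi, hq, hj, hp⟩ := h
  refine ⟨F.map i, F.map p, F.map j, F.map q, ?_, ?_, ?_, ?_, ?_, ?_, ?_, ?_, ?_⟩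
  · rw [← F.map_comp, hpi, F.map_one]
  · rw [← F.map_comp, hqj, F.map_one]
  · rw [← F.map_comp, ← F.map_comp, ← map_add, hsum, F.map_one]
  · rw [← F.map_comp, hpj, map_zero]
  · rw [← F.map_comp, hqi, map_zero]
  · rw [← F.map_d, hi, map_zero]
  · rw [← F.map_d, hq, map_zero]
  · rw [← F.map_d, hj, F.map_comp]
  · rw [← F.map_d, hp, map_neg, F.map_comp]

/-- Transport of a homotopy identity along a closed invertible morphism of degree `-n`. -/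
theorem shift_hty {C : DGCat.{u, v, w} k} {X X' Y Y' : C.Obj} {n : ℤ} (f₁ : C.Hom X X' (-n))
    (g₁ : C.Hom X' X n) (f₂ : C.Hom Y Y' (-n)) (g₂ : C.Hom Y' Y n)
    (hf₁ : C.d (rfl : -n + 1 = -n + 1) f₁ = 0) (hg₁ : C.d (rfl : n + 1 = n + 1) g₁ = 0)
    (h₁ : C.comp (neg_add_cancel n) f₁ g₁ = C.one X')
    (h₂ : C.comp (add_neg_cancel n) g₂ f₂ = C.one Y) (a : C.Hom X Y 0) (b : C.Hom Y X 0)
    (s : C.Hom X X (-1)) (hs : C.comp (zero_add 0) b a = C.one X + C.d (neg_add_cancel 1) s) :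
    ∃ t : C.Hom X' X' (-1),
      C.comp (zero_add 0) (C.comp (neg_add_cancel n) f₁ (C.comp (zero_add n) b g₂))
        (C.comp (neg_add_cancel n) f₂ (C.comp (zero_add n) a g₁)) =
        C.one X' + C.d (neg_add_cancel 1) t := by
  refine ⟨(-n).negOnePow • C.comp (show -n + (n - 1) = -1 by omega) f₁
    (C.comp (show -1 + n = n - 1 by omega) s g₁), ?_⟩
  have e1 : C.comp (zero_add 0) (C.comp (neg_add_cancel n) f₁ (C.comp (zero_add n) b g₂))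
      (C.comp (neg_add_cancel n) f₂ (C.comp (zero_add n) a g₁)) =
      C.comp (neg_add_cancel n) f₁ (C.comp (zero_add n) (C.comp (zero_add 0) b a) g₁) := by
    rw [C.assoc (neg_add_cancel n) (zero_add 0) (add_zero n) (neg_add_cancel n),
      C.assoc (zero_add n) (add_zero n) (add_zero n) (zero_add n),
      ← C.assoc (add_neg_cancel n) (zero_add n) (neg_add_cancel n) (add_zero n), h₂, C.one_comp,
      C.assoc (zero_add 0) (zero_add n) (zero_add n) (zero_add n)]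
  have e2 : C.d (show n - 1 + 1 = n by omega) (C.comp (show -1 + n = n - 1 by omega) s g₁) =
      C.comp (zero_add n) (C.d (neg_add_cancel 1) s) g₁ :=
    d_comp_closed (show -1 + n = n - 1 by omega) (show n - 1 + 1 = n by omega) (neg_add_cancel 1)
      (rfl : n + 1 = n + 1) (zero_add n) s g₁ hg₁
  have e3 : C.d (neg_add_cancel 1) (C.comp (show -n + (n - 1) = -1 by omega) f₁
      (C.comp (show -1 + n = n - 1 by omega) s g₁)) =
      (-n).negOnePow • C.comp (neg_add_cancel n) f₁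
        (C.comp (zero_add n) (C.d (neg_add_cancel 1) s) g₁) := by
    rw [← e2]
    exact d_closed_comp (show -n + (n - 1) = -1 by omega) (neg_add_cancel 1)
      (rfl : -n + 1 = -n + 1) (show n - 1 + 1 = n by omega) (neg_add_cancel n) f₁ _ hf₁
  have e4 : C.d (neg_add_cancel 1) ((-n).negOnePow • C.comp (show -n + (n - 1) = -1 by omega) f₁
      (C.comp (show -1 + n = n - 1 by omega) s g₁)) =
      C.comp (neg_add_cancel n) f₁ (C.comp (zero_add n) (C.d (neg_add_cancel 1) s) g₁) := by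
    rw [Units.smul_def, map_zsmul, ← Units.smul_def, e3, Units.smul_def, Units.smul_def, smul_ee]
  rw [e1, e4, hs, add_comp', C.one_comp, comp_add', h₁]

theorem hEquiv_shift {C : DGCat.{u, v, w} k} {X X' Y Y' : C.Obj} {n : ℤ} (h₁ : IsShift C X X' n)
    (h₂ : IsShift C Y Y' n) (h : HEquiv C X Y) : HEquiv C X' Y' := by
  obtain ⟨f₁, g₁, hf₁, hg₁, h₁₁, h₁₂⟩ := h₁
  obtain ⟨f₂, g₂, hf₂, hg₂, h₂₁, h₂₂⟩ := h₂
  obtain ⟨a, b, s, t, ha, hb, hs, ht⟩ := h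
  obtain ⟨s', hs'⟩ := shift_hty f₁ g₁ f₂ g₂ hf₁ hg₁ h₁₂ h₂₁ a b s hs
  obtain ⟨t', ht'⟩ := shift_hty f₂ g₂ f₁ g₁ hf₂ hg₂ h₂₂ h₁₁ b a t ht
  have key : ∀ {X X' Y Y' : C.Obj} (f₂ : C.Hom Y Y' (-n)) (g₁ : C.Hom X' X n) (a : C.Hom X Y 0),
      C.d (rfl : -n + 1 = -n + 1) f₂ = 0 → C.d (rfl : n + 1 = n + 1) g₁ = 0 →
      C.d (zero_add 1) a = 0 →
      C.d (zero_add 1) (C.comp (neg_add_cancel n) f₂ (C.comp (zero_add n) a g₁)) = 0 := by
    intro X X' Y Y' f₂ g₁ a hf₂ hg₁ ha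
    rw [d_closed_comp (neg_add_cancel n) (zero_add 1) (rfl : -n + 1 = -n + 1)
      (rfl : n + 1 = n + 1) (show -n + (n + 1) = 1 by omega) f₂ _ hf₂,
      d_comp_l (rfl : n + 1 = n + 1) a g₁ ha, hg₁, comp_zero', comp_zero', smul_zero]
  exact ⟨_, _, s', t', key f₂ g₁ a hf₂ hg₁ ha, key f₁ g₂ b hf₁ hg₂ hb, hs', ht'⟩

/-! ### The theorem -/

/-- RZ-L7b. -/
theorem essSurj (hC : ConeHEquiv.{u, v', w'}) : EssSurj.{u, v, w, v', w'} := by
  intro k _ A B F hF hsh hco hsp S hS Y hY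
  induction hY with
  | base Y h => exact hS Y h
  | shift Y Y' n _ h ih =>
    obtain ⟨X, hX⟩ := ih
    obtain ⟨X', hX'⟩ := hsh X n
    exact ⟨X', hEquiv_shift (isShift_map F hX') h hX⟩
  | cone Y₁ Y₂ Z f _ _ hf hZ ih₁ ih₂ =>
    obtain ⟨X₁, u₁, v₁, s₁, t₁, hu₁, hv₁, hs₁, ht₁⟩ := ih₁
    obtain ⟨X₂, u₂, v₂, s₂, t₂, hu₂, hv₂, hs₂, ht₂⟩ := ih₂
    obtain ⟨g', hg'⟩ := mapH_surj F hF (X := X₁) (Y := X₂)
      (cl u₁ hu₁ ≫ cl f hf ≫ cl v₂ hv₂)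
    obtain ⟨g, hg, rfl⟩ := exists_cl g'
    obtain ⟨Z₀, hZ₀⟩ := hco X₁ X₂ g hg
    have h1 : cl (F.map g) (closed_map F hg) ≫ cl u₂ hu₂ = cl u₁ hu₁ ≫ cl f hf := by
      have h2 : cl v₂ hv₂ ≫ cl u₂ hu₂ = 𝟙 _ := by
        rw [cl_comp, ← cl_one, cl_eq]
        exact ⟨t₂, ht₂⟩
      rw [← mapH_cl (hf := hg), hg', Category.assoc, Category.assoc, h2, Category.comp_id]
    rw [cl_comp, cl_comp, cl_eq] at h1
    obtain ⟨h, hh⟩ := h1
    exact ⟨Z₀, hC (F.map g) f u₁ u₂ h (closed_map F hg) hf (isCone_map F hZ₀) hZ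
      ⟨v₁, s₁, t₁, hu₁, hv₁, hs₁, ht₁⟩ ⟨v₂, s₂, t₂, hu₂, hv₂, hs₂, ht₂⟩ hh⟩
  | retract Y Y' _ h ih =>
    obtain ⟨X, hX⟩ := ih
    obtain ⟨i, p, h, hi, hp, hpi⟩ := h
    obtain ⟨U⟩ := hEquiv_iff.1 hX
    have h1 : cl i hi ≫ cl p hp = 𝟙 _ := by
      rw [cl_comp, ← cl_one, cl_eq]
      exact ⟨h, hpi⟩
    obtain ⟨e', he'⟩ := mapH_surj F hF (X := X) (Y := X)
      (U.hom ≫ cl p hp ≫ cl i hi ≫ U.inv)
    have h2 : e' ≫ e' = e' := by
      apply mapH_inj F hF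
      rw [mapH_comp, he']
      simp only [Category.assoc, Iso.inv_hom_id_assoc]
      rw [reassoc_of% h1]
    obtain ⟨e, he, rfl⟩ := exists_cl e'
    rw [cl_comp, cl_eq] at h2
    obtain ⟨h₀, hh₀⟩ := h2
    obtain ⟨N, r, s, a, b, hr, hs, hrs, hsr⟩ := hsp X e h₀ he hh₀
    have h3 : cl s hs ≫ cl r hr = 𝟙 _ := by
      rw [cl_comp, ← cl_one, cl_eq]
      exact ⟨a, hrs⟩
    have h4 : cl r hr ≫ cl s hs = cl e he := by
      rw [cl_comp, cl_eq]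
      exact ⟨b, hsr⟩
    refine ⟨N, hEquiv_iff.2 ⟨⟨mapH F (cl s hs) ≫ U.hom ≫ cl p hp,
      cl i hi ≫ U.inv ≫ mapH F (cl r hr), ?_, ?_⟩⟩⟩
    · have h5 : (mapH F (cl s hs) ≫ U.hom ≫ cl p hp) ≫ cl i hi ≫ U.inv ≫
          mapH F (cl r hr) = mapH F (cl s hs ≫ cl e he ≫ cl r hr) := by
        rw [mapH_comp, mapH_comp, he']
        simp only [Category.assoc]
      rw [h5, ← h4, Category.assoc, h3, Category.comp_id, h3, mapH_id]
    · have h5 : (cl i hi ≫ U.inv ≫ mapH F (cl r hr)) ≫ mapH F (cl s hs) ≫ U.hom ≫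
          cl p hp = cl i hi ≫ U.inv ≫ mapH F (cl r hr ≫ cl s hs) ≫ U.hom ≫ cl p hp := by
        rw [mapH_comp]
        simp only [Category.assoc]
      rw [h5, h4, he']
      simp only [Category.assoc, Iso.inv_hom_id_assoc]
      rw [reassoc_of% h1, h1]

end Pool.Agent.Helper61.RZL
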