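import Pool.Agent.Helper49.RZ.St

/-!
# RZ-L7a: homotopy equivalences from quasi-isomorphisms, cones of homotopy equivalent morphisms
-/

set_option autoImplicit false

namespace Pool.Agent.Helper61.RZL

open Pool.Agent.Helper17.RZ Pool.Agent.Helper49.RZ

universe u v w w₁ w₂

section

variable {k : Type u} [Field k] {C : DGCat.{u, v, w} k}

theorem comp_zero' {X Y Z : C.Obj} {n m l : ℤ} (h : n + m = l) (f : C.Hom Y Z n) :
    C.comp h f (0 : C.Hom X Y m) = 0 := map_zero _

theorem zero_comp' {X Y Z : C.Obj} {n m l : ℤ} (h : n + m = l) (f : C.Hom X Y m) :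
    C.comp h (0 : C.Hom Y Z n) f = 0 := by rw [map_zero, LinearMap.zero_apply]

theorem add_comp' {X Y Z : C.Obj} {n m l : ℤ} (h : n + m = l) (f f' : C.Hom Y Z n)
    (g : C.Hom X Y m) : C.comp h (f + f') g = C.comp h f g + C.comp h f' g := by
  rw [map_add, LinearMap.add_apply]

theorem comp_add' {X Y Z : C.Obj} {n m l : ℤ} (h : n + m = l) (f : C.Hom Y Z n)
    (g g' : C.Hom X Y m) : C.comp h f (g + g') = C.comp h f g + C.comp h f g' := map_add _ _ _

theorem neg_comp' {X Y Z : C.Obj} {n m l : ℤ} (h : n + m = l) (f : C.Hom Y Z n)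
    (g : C.Hom X Y m) : C.comp h (-f) g = - C.comp h f g := by
  rw [map_neg, LinearMap.neg_apply]

theorem comp_neg' {X Y Z : C.Obj} {n m l : ℤ} (h : n + m = l) (f : C.Hom Y Z n)
    (g : C.Hom X Y m) : C.comp h f (-g) = - C.comp h f g := map_neg _ _

theorem sub_comp' {X Y Z : C.Obj} {n m l : ℤ} (h : n + m = l) (f f' : C.Hom Y Z n)
    (g : C.Hom X Y m) : C.comp h (f - f') g = C.comp h f g - C.comp h f' g := by
  rw [map_sub, LinearMap.sub_apply]

theorem comp_sub' {X Y Z : C.Obj} {n m l : ℤ} (h : n + m = l) (f : C.Hom Y Z n)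
    (g g' : C.Hom X Y m) : C.comp h f (g - g') = C.comp h f g - C.comp h f g' := map_sub _ _ _

/-- The differential of a composition whose first factor is closed. -/
theorem d_closed_comp {X Y Z : C.Obj} {n m l n' m' l' : ℤ} (h : n + m = l) (hl : l + 1 = l')
    (hn : n + 1 = n') (hm : m + 1 = m') (h₂ : n + m' = l') (f : C.Hom Y Z n) (g : C.Hom X Y m)
    (hf : C.d hn f = 0) : C.d hl (C.comp h f g) = n.negOnePow • C.comp h₂ f (C.d hm g) := by
  rw [C.d_comp h hl hn hm (by omega) h₂, hf, zero_comp', zero_add]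

/-- The differential of a composition whose second factor is closed. -/
theorem d_comp_closed {X Y Z : C.Obj} {n m l n' m' l' : ℤ} (h : n + m = l) (hl : l + 1 = l')
    (hn : n + 1 = n') (hm : m + 1 = m') (h₁ : n' + m = l') (f : C.Hom Y Z n) (g : C.Hom X Y m)
    (hg : C.d hm g = 0) : C.d hl (C.comp h f g) = C.comp h₁ (C.d hn f) g := by
  rw [C.d_comp h hl hn hm h₁ (by omega), hg, comp_zero', smul_zero, add_zero]

/-- Closed morphisms of degree `0` on the left. -/
theorem d_comp_l {X Y Z : C.Obj} {n m : ℤ} (h : n + 1 = m) (f : C.Hom Y Z 0) (g : C.Hom X Y n)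
    (hf : C.d (zero_add 1) f = 0) :
    C.d h (C.comp (zero_add n) f g) = C.comp (zero_add m) f (C.d h g) := by
  rw [d_closed_comp (zero_add n) h (zero_add 1) h (zero_add m) f g hf, Int.negOnePow_zero, one_smul]

/-- Closed morphisms of degree `0` on the right. -/
theorem d_comp_r {X Y Z : C.Obj} {n m : ℤ} (h : n + 1 = m) (f : C.Hom Y Z n) (g : C.Hom X Y 0)
    (hg : C.d (zero_add 1) g = 0) :
    C.d h (C.comp (add_zero n) f g) = C.comp (add_zero m) (C.d h f) g :=
  d_comp_closed (add_zero n) h h (zero_add 1) (add_zero m) f g hg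

theorem d_one (X : C.Obj) : C.d (zero_add 1) (C.one X) = 0 := by
  have h := C.d_comp (zero_add 0) (zero_add 1) (zero_add 1) (zero_add 1) (add_zero 1) (zero_add 1)
    (C.one X) (C.one X)
  rw [C.one_comp, C.comp_one, C.one_comp, Int.negOnePow_zero, one_smul] at h
  exact (left_eq_add.1 h)

end

/-- RZ-L7a. -/
theorem hEquivOfQI : HEquivOfQI.{u, v, w} := by
  intro k _ C X Y c hc H
  obtain ⟨mY, hmY, hmY'⟩ := H Y
  obtain ⟨mX, hmX, hmX'⟩ := H X
  obtain ⟨g, z, hg, hgz⟩ : ∃ (g : C.Hom Y X 0) (z : C.Hom Y Y (-1)), C.d (zero_add 1) g = 0 ∧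
      C.one Y = C.comp (zero_add 0) c g + C.d (neg_add_cancel 1) z := by
    obtain ⟨g, z, hg, hgz⟩ := hmY.surj (l := -1) (n := 0) (m := 1) (neg_add_cancel 1)
      (zero_add 1) (C.one Y) (d_one Y)
    exact ⟨g, z, hg, hgz.trans (congrArg (fun t : C.Hom Y Y 0 => t + C.d (neg_add_cancel 1) z)
      (hmY' 0 g))⟩
  have hcg : C.comp (zero_add 0) c g = C.one Y + C.d (neg_add_cancel 1) (-z) := by
    rw [map_neg, ← sub_eq_add_neg, eq_sub_iff_add_eq]
    exact hgz.symm
  have hu : C.d (zero_add 1) (C.comp (zero_add 0) g c - C.one X) = 0 := by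
    rw [map_sub, d_comp_l (zero_add 1) g c hg, hc, comp_zero', d_one, sub_zero]
  have hcu : mX.f 0 (C.comp (zero_add 0) g c - C.one X) =
      (homC C X Y).d (neg_add_cancel 1) (- C.comp (add_zero (-1)) z c) := by
    rw [hmX']
    change C.comp (zero_add 0) c (C.comp (zero_add 0) g c - C.one X) =
      C.d (neg_add_cancel 1) (- C.comp (add_zero (-1)) z c)
    have e1 : C.d (neg_add_cancel 1) (-z) = - C.d (neg_add_cancel 1) z := map_neg _ _
    have e2 : C.d (neg_add_cancel 1) (- C.comp (add_zero (-1)) z c) =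
      - C.d (neg_add_cancel 1) (C.comp (add_zero (-1)) z c) := map_neg _ _
    rw [comp_sub', C.comp_one, ← C.assoc (zero_add 0) (zero_add 0) (zero_add 0) (zero_add 0), hcg,
      add_comp', C.one_comp, e1, e2, neg_comp', d_comp_r (neg_add_cancel 1) z c hc]
    abel
  obtain ⟨s, hs⟩ := hmX.inj (l := -1) (n := 0) (m := 1) (neg_add_cancel 1) (zero_add 1) _ _ hu hcu
  change C.comp (zero_add 0) g c - C.one X = C.d (neg_add_cancel 1) s at hs
  exact ⟨c, g, s, -z, hc, hg, by rw [← hs]; abel, hcg⟩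

section

variable {k : Type u} [Field k] {C : DGCat.{u, v, w} k}

/-- Postcomposition with a closed morphism of degree `0`. -/
def post (W : C.Obj) {X Y : C.Obj} (c : C.Hom X Y 0) (hc : C.d (zero_add 1) c = 0) :
    GC.Map (homC C W X) (homC C W Y) where
  f n := C.comp (zero_add n) c
  comm h x := (d_comp_l h c x hc).symm

theorem post_inj (W : C.Obj) {X Y : C.Obj} (a : C.Hom X Y 0)
    (a' : C.Hom Y X 0) (s : C.Hom X X (-1)) (ha' : C.d (zero_add 1) a' = 0)
    (h₁ : C.comp (zero_add 0) a' a = C.one X + C.d (neg_add_cancel 1) s) {l n m : ℤ}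
    (hl : l + 1 = n) (hm : n + 1 = m) (x : C.Hom W X n) (y : C.Hom W Y l) (hx : C.d hm x = 0)
    (hy : C.comp (zero_add n) a x = C.d hl y) : ∃ z : C.Hom W X l, x = C.d hl z := by
  refine ⟨C.comp (zero_add l) a' y - C.comp (show -1 + n = l by omega) s x, ?_⟩
  have h3 : C.comp (zero_add n) a' (C.comp (zero_add n) a x) =
      x + C.comp (zero_add n) (C.d (neg_add_cancel 1) s) x := by
    rw [← C.assoc (zero_add 0) (zero_add n) (zero_add n) (zero_add n), h₁, add_comp', C.one_comp]
  rw [map_sub, d_comp_l hl a' y ha', ← hy, h3,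
    d_comp_closed (show -1 + n = l by omega) hl (neg_add_cancel 1) hm (zero_add n) s x hx]
  abel

theorem post_surj (W : C.Obj) {X Y : C.Obj} (a : C.Hom X Y 0)
    (a' : C.Hom Y X 0) (t : C.Hom Y Y (-1)) (ha' : C.d (zero_add 1) a' = 0)
    (h₂ : C.comp (zero_add 0) a a' = C.one Y + C.d (neg_add_cancel 1) t) {l n m : ℤ}
    (hl : l + 1 = n) (hm : n + 1 = m) (y : C.Hom W Y n) (hy : C.d hm y = 0) :
    ∃ (x : C.Hom W X n) (z : C.Hom W Y l), C.d hm x = 0 ∧
      y = C.comp (zero_add n) a x + C.d hl z := by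
  refine ⟨C.comp (zero_add n) a' y, - C.comp (show -1 + n = l by omega) t y, ?_, ?_⟩
  · rw [d_comp_l hm a' y ha', hy, comp_zero']
  · rw [← C.assoc (zero_add 0) (zero_add n) (zero_add n) (zero_add n), h₂, add_comp', C.one_comp,
      map_neg, d_comp_closed (show -1 + n = l by omega) hl (neg_add_cancel 1) hm (zero_add n) t y hy]
    abel

theorem post_QI (W : C.Obj) {X Y : C.Obj} (a : C.Hom X Y 0) (ha : C.d (zero_add 1) a = 0)
    (a' : C.Hom Y X 0) (s : C.Hom X X (-1)) (t : C.Hom Y Y (-1)) (ha' : C.d (zero_add 1) a' = 0)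
    (h₁ : C.comp (zero_add 0) a' a = C.one X + C.d (neg_add_cancel 1) s)
    (h₂ : C.comp (zero_add 0) a a' = C.one Y + C.d (neg_add_cancel 1) t) :
    (post W a ha).QI where
  inj := fun hl hm x y hx hy => post_inj W a a' s ha' h₁ hl hm x y hx hy
  surj := fun hl hm y hy => post_surj W a a' t ha' h₂ hl hm y hy

/-- The shift of a morphism of complexes. -/
def gmap {A : GC.{u, w₁} k} {B : GC.{u, w₂} k} (F : GC.Map A B) (s : ℤ) (e : ℤˣ) :
    GC.Map (gshift A s e) (gshift B s e) where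
  f n := F.f (n + s)
  comm {n m} h x := by
    change F.f _ ((e : ℤ) • A.d _ x) = (e : ℤ) • B.d _ (F.f _ x)
    rw [map_zsmul, F.comm]

theorem smul_ee (e : ℤˣ) {M : Type*} [AddCommGroup M] (x : M) :
    (e : ℤ) • ((e : ℤ) • x) = x := by
  rw [smul_smul]
  rcases Int.units_eq_one_or e with h | h <;> simp [h]

theorem gmap_QI {A : GC.{u, w₁} k} {B : GC.{u, w₂} k} {F : GC.Map A B} (hF : F.QI) (s : ℤ)
    (e : ℤˣ) : (gmap F s e).QI where
  inj := by
    intro l n m hl hm x y hx hy
    have hx' : A.d (show n + s + 1 = m + s by omega) x = 0 :=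
      (smul_ee e _).symm.trans ((congrArg (fun z => (e : ℤ) • z) hx).trans (smul_zero _))
    obtain ⟨z, hz⟩ := hF.inj (show l + s + 1 = n + s by omega) (show n + s + 1 = m + s by omega) x
      ((e : ℤ) • y) hx' (hy.trans (map_zsmul (B.d (show l + s + 1 = n + s by omega)) (e : ℤ) y).symm)
    refine ⟨(e : ℤ) • z, ?_⟩
    refine hz.trans ?_
    refine (smul_ee e _).symm.trans ?_
    exact congrArg (fun z => (e : ℤ) • z)
      (map_zsmul (A.d (show l + s + 1 = n + s by omega)) (e : ℤ) z).symm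
  surj := by
    intro l n m hl hm y hy
    have hy' : B.d (show n + s + 1 = m + s by omega) y = 0 :=
      (smul_ee e _).symm.trans ((congrArg (fun z => (e : ℤ) • z) hy).trans (smul_zero _))
    obtain ⟨x, z, hx, hz⟩ := hF.surj (show l + s + 1 = n + s by omega)
      (show n + s + 1 = m + s by omega) y hy'
    refine ⟨x, (e : ℤ) • z, ?_, ?_⟩
    · exact (congrArg (fun z => (e : ℤ) • z) hx).trans (smul_zero _)
    · refine hz.trans (congrArg (fun t => F.f (n + s) x + t) ?_)
      refine (smul_ee e _).symm.trans ?_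
      exact congrArg (fun z => (e : ℤ) • z)
        (map_zsmul (B.d (show l + s + 1 = n + s by omega)) (e : ℤ) z).symm

/-- The exact sequence of a cone. -/
def coneSES (W : C.Obj) {X Y Z : C.Obj} (i : C.Hom Y Z 0) (p : C.Hom Z Y 0)
    (j : C.Hom X Z (-1)) (q : C.Hom Z X 1) (hpi : C.comp (zero_add 0) p i = C.one Y)
    (hqj : C.comp (add_neg_cancel 1) q j = C.one X)
    (hsum : C.comp (zero_add 0) i p + C.comp (neg_add_cancel 1) j q = C.one Z)
    (hqi : C.comp (add_zero 1) q i = 0) (hi : C.d (zero_add 1) i = 0)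
    (hq : C.d (rfl : (1 : ℤ) + 1 = 1 + 1) q = 0) :
    SES (homC C W Y) (homC C W Z) (gshift (homC C W X) 1 (-1)) where
  α := post W i hi
  β :=
    { f := fun n => C.comp (add_comm 1 n) q
      comm := fun {n m} h x => by
        change C.comp (add_comm 1 m) q (C.d h x) =
          ((-1 : ℤˣ) : ℤ) • C.d (show n + 1 + 1 = m + 1 by omega) (C.comp (add_comm 1 n) q x)
        rw [d_closed_comp (add_comm 1 n) (show n + 1 + 1 = m + 1 by omega)
          (rfl : (1 : ℤ) + 1 = 1 + 1) h (add_comm 1 m) q x hq, Int.negOnePow_one]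
        simp }
  π n := C.comp (zero_add n) p
  σ n := C.comp (show -1 + (n + 1) = n by omega) j
  πα n x := by
    change C.comp (zero_add n) p (C.comp (zero_add n) i x) = x
    rw [← C.assoc (zero_add 0) (zero_add n) (zero_add n) (zero_add n), hpi, C.one_comp]
  βσ n x := by
    change C.comp (add_comm 1 n) q (C.comp (show -1 + (n + 1) = n by omega) j x) = x
    rw [← C.assoc (add_neg_cancel 1) (zero_add (n + 1)) (show -1 + (n + 1) = n by omega)
      (add_comm 1 n), hqj]
    exact C.one_comp (zero_add (n + 1)) x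
  βα n x := by
    change C.comp (add_comm 1 n) q (C.comp (zero_add n) i x) = 0
    rw [← C.assoc (add_zero 1) (add_comm 1 n) (zero_add n) (add_comm 1 n), hqi, zero_comp']
  sum n x := by
    change C.comp (zero_add n) i (C.comp (zero_add n) p x) +
      C.comp (show -1 + (n + 1) = n by omega) j (C.comp (add_comm 1 n) q x) = x
    rw [← C.assoc (zero_add 0) (zero_add n) (zero_add n) (zero_add n),
      ← C.assoc (neg_add_cancel 1) (zero_add n) (add_comm 1 n) (show -1 + (n + 1) = n by omega),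
      ← add_comp', hsum, C.one_comp]

end

/-- RZ-L7a. -/
theorem coneHEquiv (five : Five.{u, w, w, w, w, w, w}) : ConeHEquiv.{u, v, w} := by
  intro k _ C X Y X' Y' Z Z' f f' a b h hf hf' hZ hZ' ha hb hbf
  obtain ⟨i, p, j, q, hpi, hqj, hsum, hpj, hqi, hi, hq, hj, hp⟩ := hZ
  obtain ⟨i', p', j', q', hpi', hqj', hsum', hpj', hqi', hi', hq', hj', hp'⟩ := hZ'
  obtain ⟨a', sa, ta, hac, hac', ha1, ha2⟩ := ha
  obtain ⟨b', sb, tb, hbc, hbc', hb1, hb2⟩ := hb
  -- the three parts of the morphism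
  set c₁ : C.Hom Z Z' 0 := C.comp (zero_add 0) i' (C.comp (zero_add 0) b p) with hc₁
  set c₂ : C.Hom Z Z' 0 := C.comp (neg_add_cancel 1) j' (C.comp (zero_add 1) a q) with hc₂
  set c₃ : C.Hom Z Z' 0 := C.comp (zero_add 0) i' (C.comp (neg_add_cancel 1) h q) with hc₃
  have hdaq : C.d (rfl : (1 : ℤ) + 1 = 1 + 1) (C.comp (zero_add 1) a q) = 0 := by
    rw [d_comp_l (rfl : (1 : ℤ) + 1 = 1 + 1) a q hac, hq, comp_zero']
  have hd1 : C.d (zero_add 1) c₁ = - C.comp (zero_add 1) i' (C.comp (zero_add 1)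
      (C.comp (zero_add 0) b f) q) := by
    rw [hc₁, d_comp_l (zero_add 1) i' _ hi', d_comp_l (zero_add 1) b p hbc, hp, comp_neg', comp_neg',
      C.assoc (zero_add 0) (zero_add 1) (zero_add 1) (zero_add 1)]
  have hd2 : C.d (zero_add 1) c₂ = C.comp (zero_add 1) i' (C.comp (zero_add 1)
      (C.comp (zero_add 0) f' a) q) := by
    rw [hc₂, d_comp_closed (neg_add_cancel 1) (zero_add 1) (neg_add_cancel 1)
      (rfl : (1 : ℤ) + 1 = 1 + 1) (zero_add 1) j' _ hdaq, hj',
      C.assoc (zero_add 0) (zero_add 1) (zero_add 1) (zero_add 1),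
      C.assoc (zero_add 0) (zero_add 1) (zero_add 1) (zero_add 1)]
  have hd3 : C.d (zero_add 1) c₃ = C.comp (zero_add 1) i' (C.comp (zero_add 1)
      (C.d (neg_add_cancel 1) h) q) := by
    rw [hc₃, d_comp_l (zero_add 1) i' _ hi', d_comp_closed (neg_add_cancel 1) (zero_add 1)
      (neg_add_cancel 1) (rfl : (1 : ℤ) + 1 = 1 + 1) (zero_add 1) h q hq]
  have hc : C.d (zero_add 1) (c₁ + c₂ + c₃) = 0 := by
    rw [map_add, map_add, hd1, hd2, hd3, hbf, add_comp', comp_add']
    abel
  have hci : C.comp (zero_add 0) (c₁ + c₂ + c₃) i = C.comp (zero_add 0) i' b := by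
    rw [add_comp', add_comp', hc₁, hc₂, hc₃, C.assoc (zero_add 0) (zero_add 0) (zero_add 0) (zero_add 0),
      C.assoc (zero_add 0) (zero_add 0) (zero_add 0) (zero_add 0), hpi, C.comp_one,
      C.assoc (neg_add_cancel 1) (zero_add 0) (add_zero 1) (neg_add_cancel 1),
      C.assoc (zero_add 1) (add_zero 1) (add_zero 1) (zero_add 1), hqi, comp_zero', comp_zero',
      C.assoc (zero_add 0) (zero_add 0) (zero_add 0) (zero_add 0),
      C.assoc (neg_add_cancel 1) (zero_add 0) (add_zero 1) (neg_add_cancel 1), hqi, comp_zero',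
      comp_zero', add_zero, add_zero]
  have hqc : C.comp (add_zero 1) q' (c₁ + c₂ + c₃) = C.comp (zero_add 1) a q := by
    rw [comp_add', comp_add', hc₁, hc₂, hc₃,
      ← C.assoc (add_zero 1) (add_zero 1) (zero_add 0) (add_zero 1), hqi', zero_comp',
      ← C.assoc (add_neg_cancel 1) (zero_add 1) (neg_add_cancel 1) (add_zero 1), hqj', C.one_comp,
      ← C.assoc (add_zero 1) (add_zero 1) (zero_add 0) (add_zero 1), hqi', zero_comp', zero_add,
      add_zero]
  refine hEquivOfQI (c₁ + c₂ + c₃) hc fun W => ⟨post W _ hc, ?_, fun n x => rfl⟩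
  refine five (coneSES W i p j q hpi hqj hsum hqi hi hq)
    (coneSES W i' p' j' q' hpi' hqj' hsum' hqi' hi' hq') (post W b hbc) (post W _ hc)
    (gmap (post W a hac) 1 (-1)) ?_ ?_ (post_QI W b hbc b' sb tb hbc' hb1 hb2)
    (gmap_QI (post_QI W a hac a' sa ta hac' ha1 ha2) 1 (-1))
  · intro n x
    change C.comp (zero_add n) (c₁ + c₂ + c₃) (C.comp (zero_add n) i x) =
      C.comp (zero_add n) i' (C.comp (zero_add n) b x)
    rw [← C.assoc (zero_add 0) (zero_add n) (zero_add n) (zero_add n), hci,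
      C.assoc (zero_add 0) (zero_add n) (zero_add n) (zero_add n)]
  · intro n x
    change C.comp (zero_add (n + 1)) a (C.comp (add_comm 1 n) q x) =
      C.comp (add_comm 1 n) q' (C.comp (zero_add n) (c₁ + c₂ + c₃) x)
    rw [← C.assoc (add_zero 1) (add_comm 1 n) (zero_add n) (add_comm 1 n), hqc,
      C.assoc (zero_add 1) (add_comm 1 n) (add_comm 1 n) (zero_add (n + 1))]

end Pool.Agent.Helper61.RZL
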