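import Pool.Agent.Helper49.RZ.St

/-!
# RZ-L6b: `Perf V` has shifts, cones and split idempotents
-/

set_option autoImplicit false

namespace Pool.Agent.Helper61.RZL

open Pool.Agent.Helper17.RZ Pool.Agent.Helper49.RZ

universe u v w

/-- RZ-L6b. -/
theorem perfClosed (hS : ModShift.{u, v, w}) (hC : ModCone.{u, v, w}) (hP : HProjThick.{u, v, w})
    (hI : HProjSplits.{u, v, w}) : PerfClosed.{u, v, w} := by
  intro k _ V
  refine ⟨?_, ?_, ?_⟩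
  · rintro ⟨M, hM⟩ n
    obtain ⟨N, hN⟩ := hS M n
    exact ⟨⟨N, DGThick.shift M N n hM hN⟩, hN⟩
  · rintro ⟨M, hM⟩ ⟨N, hN⟩ f hf
    obtain ⟨Z, hZ⟩ := hC M N f hf
    exact ⟨⟨Z, DGThick.cone M N Z f hM hN hf hZ⟩, hZ⟩
  · rintro ⟨M, hM⟩ e h he hh
    obtain ⟨N, r, s, a, b, hr, hs, h1, h2⟩ := hI M (hP M hM) e h he hh
    exact ⟨⟨N, DGThick.retract M N hM ⟨s, r, a, hs, hr, h1⟩⟩, r, s, a, b, hr, hs, h1, h2⟩

end Pool.Agent.Helper61.RZL
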